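import Pool.Agent.T9h44.NK.SpecA
import Pool.Agent.T9h44.NK.SpecB

set_option autoImplicit false

/-! Piece (SS2) of NK. -/

open Set
open scoped RealInnerProductSpace

namespace Pool.Agent.T9h60.NK

open Pool.Agent.T9h98.DC Pool.Agent.T9h44.NK

theorem ss2 (hF : S_FACES) (hC : S_CONN) (hM : S_M3) : S_SS2 := by
  classical
  intro d P s κ hP hS hκ
  obtain ⟨hs, hd, hX, hk⟩ := hS
  obtain ⟨f1, -, -, -, f5, -, -, -, f9, -⟩ := hF (d + 5) P hP.1
  have hne : P.Nonempty := hP.2.mono interior_subset
  obtain ⟨hPP, v0, hv0⟩ := f5 hne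
  obtain ⟨X, hXc, hXm⟩ := hX v0 hv0
  have tri : ∀ v y z, Adj P v y → Adj P v z → y ≠ z → Adj P y z := by
    intro v y z hy hz hyz
    obtain ⟨h1, T, hT, hT2, hvT, hyT, hzT⟩ := hk v y z hy hz hyz
    have := hM (d + 4) P T s (1 / 2) hP hT hT2 hs (fun a b hab _ _ => hd a b hab)
      (fun v y z h1 h2 h3 _ _ _ => by
        rw [(hk v y z h1 h2 h3).1, hκ v (f9 v y h1).1]) v y z hy hz hyz hvT hyT hzT
    rcases this with ⟨-, h⟩ | ⟨h, -⟩ | h
    · exact h
    · norm_num at h
    · norm_num at h
  have hv0X : v0 ∉ X := fun h => ((hXm v0).1 h).1 rfl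
  have hall : ∀ v, Vx P v → v ∈ {v | v = v0 ∨ v ∈ X} := by
    refine hC (d + 4) P hP {v | v = v0 ∨ v ∈ X} ⟨v0, Or.inl rfl, hv0⟩ ?_
    rintro v (rfl | hv) w hvv hw
    · exact Or.inr ((hXm w).2 hw)
    · obtain ⟨Y, hYc, hYm⟩ := hX v hvv
      have hadj : Adj P v0 v := (hXm v).1 hv
      have hsub : insert v0 (X.erase v) ⊆ Y := by
        intro u hu
        rw [Finset.mem_insert, Finset.mem_erase] at hu
        rw [hYm]
        rcases hu with rfl | ⟨h1, h2⟩
        · exact (f9 _ _ hadj).2.2.1
        · exact tri v0 v u hadj ((hXm u).1 h2) (Ne.symm h1)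
      have hcard : (insert v0 (X.erase v)).card = d + 5 := by
        rw [Finset.card_insert_of_notMem (fun h => hv0X (Finset.mem_of_mem_erase h)),
          Finset.card_erase_of_mem hv, hXc]
        omega
      have heq := Finset.eq_of_subset_of_card_le hsub (by rw [hcard, hYc])
      have hwY : w ∈ Y := (hYm w).2 hw
      rw [← heq, Finset.mem_insert, Finset.mem_erase] at hwY
      rcases hwY with h | h
      · exact Or.inl h
      · exact Or.inr h.2
  have hZ : (insert v0 X).card = d + 5 + 1 := by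
    rw [Finset.card_insert_of_notMem hv0X, hXc]
  have hdist : ∀ a ∈ insert v0 X, ∀ b ∈ insert v0 X, a ≠ b → dist a b = s := by
    intro a ha b hb hab
    rw [Finset.mem_insert] at ha hb
    rcases ha with rfl | ha
    · rcases hb with rfl | hb
      · exact absurd rfl hab
      · exact hd _ _ ((hXm b).1 hb)
    · rcases hb with rfl | hb
      · rw [dist_comm]
        exact hd _ _ ((hXm a).1 ha)
      · exact hd _ _ (tri v0 a b ((hXm a).1 ha) ((hXm b).1 hb) hab)
  let e := (Finset.equivFinOfCardEq hZ).symm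
  refine ⟨fun i => (e i : E (d + 5)), s, hs, ?_, ?_⟩
  · intro i j hij
    refine hdist _ (e i).2 _ (e j).2 fun h => hij (e.injective (Subtype.ext h))
  · have h1 : P = convexHull ℝ {v | Vx P v ∧ v ∈ P} := (f1 P hPP).2
    have h2 : {v | Vx P v ∧ v ∈ P} = range (fun i => (e i : E (d + 5))) := by
      ext v
      constructor
      · rintro ⟨h3, -⟩
        have h4 : v ∈ insert v0 X := by
          rw [Finset.mem_insert]
          exact hall v h3
        exact ⟨e.symm ⟨v, h4⟩, by simp⟩
      · rintro ⟨i, rfl⟩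
        have h4 := (e i).2
        rw [Finset.mem_insert] at h4
        have h5 : Vx P (e i : E (d + 5)) := by
          rcases h4 with h4 | h4
          · rw [h4]
            exact hv0
          · exact (f9 _ _ ((hXm _).1 h4)).2.1
        exact ⟨h5, h5.2.subset rfl⟩
    rw [← h2]
    exact h1

end Pool.Agent.T9h60.NK
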